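import Mathlib
import Pool.Agent.R953.BootMain

/-!
# MP_0cce6e_pr: moment lower bounds for bootstrap percolation thresholds on Galton-Watson trees

We prove that for every `r ≥ 3` and every real `α ∈ (0, r - 1]` (in particular for
`α ∈ (1, r - 1]`) there is a constant `c > 0` such that for every offspring distribution `ξ`,
almost surely, if the Galton-Watson tree `T_ξ` is infinite, then
`p_c(T_ξ, r) ≥ c (E ξ^{1+α})^{-1/α}`.
-/

set_option autoImplicit false

open MeasureTheory ProbabilityTheory Filter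
open scoped ENNReal NNReal Topology

namespace Pool.Agent.Results.MP_0cce6e_pr.MomentBound

open Pool.Agent.R953.Boot Pool.Agent.R953.GW

lemma hh_le_pow {y : ℝ} (h0 : 0 ≤ y) (h1 : y ≤ 1) (k : ℕ) : ∀ r, hh r k y ≤ (k * y) ^ r := by
  induction k with
  | zero =>
    intro r
    cases r with
    | zero => simp [hh_zero]
    | succ r => rw [hh_succ_zero]; positivity
  | succ k ih =>
    intro r
    cases r with
    | zero => simp [hh_zero]
    | succ r =>
      rw [hh_succ]
      have h2 := ih r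
      have h3 := ih (r + 1)
      have h4 := hh_nonneg h0 h1 k (r + 1)
      have h5 : y * hh r k y + (1 - y) * hh (r + 1) k y ≤ y * (k * y) ^ r + (k * y) ^ (r + 1) := by
        have := mul_le_mul_of_nonneg_left h2 h0
        nlinarith
      refine h5.trans ?_
      have h6 : y * (k * y) ^ r + (k * y) ^ (r + 1) = (k * y) ^ r * ((k + 1) * y) := by ring
      rw [h6, pow_succ]
      push_cast
      gcongr
      linarith

lemma hh_le_rpow {y : ℝ} (h0 : 0 ≤ y) (h1 : y ≤ 1) (k r : ℕ) {s : ℝ} (hs : 0 ≤ s) (hsr : s ≤ r) :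
    hh r k y ≤ (k * y) ^ s := by
  have hky : 0 ≤ (k : ℝ) * y := by positivity
  rcases le_total ((k : ℝ) * y) 1 with h | h
  · rcases hky.eq_or_lt with h2 | h2
    · have h3 := hh_le_pow h0 h1 k r
      rw [← h2] at h3 ⊢
      refine h3.trans ?_
      rcases Nat.eq_zero_or_pos r with hr | hr
      · have : s = 0 := le_antisymm (by rw [hr] at hsr; simpa using hsr) hs
        rw [this, hr]
        simp
      · rw [zero_pow hr.ne']
        exact Real.rpow_nonneg le_rfl _
    · refine (hh_le_pow h0 h1 k r).trans ?_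
      rw [← Real.rpow_natCast]
      exact Real.rpow_le_rpow_of_exponent_ge h2 h hsr
  · exact (hh_le_one h0 h1 k r).trans (Real.one_le_rpow h hs)

/-- The real form of the bound. -/
theorem main_real {r : ℕ} (hr : 3 ≤ r) {α : ℝ} (hα : 0 < α) (hαr : α ≤ r - 1) (μ : PMF ℕ)
    (hs : Summable fun k => (μ k).toReal * (k : ℝ) ^ (1 + α)) :
    ∀ᵐ T ∂(gw μ), {v | InT T v}.Infinite →
      (α / (1 + α)) * (1 + α) ^ (-(1 / α)) *
        (∑' k, (μ k).toReal * (k : ℝ) ^ (1 + α)) ^ (-(1 / α)) ≤ pcrit (treeG T) r := by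
  set M : ℝ := ∑' k, (μ k).toReal * (k : ℝ) ^ (1 + α) with hM
  have hM0 : 0 ≤ M := tsum_nonneg fun k =>
    mul_nonneg ENNReal.toReal_nonneg (Real.rpow_nonneg (Nat.cast_nonneg k) _)
  have hk1 : ∀ k : ℕ, (k : ℝ) ≤ (k : ℝ) ^ (1 + α) := by
    intro k
    rcases Nat.eq_zero_or_pos k with rfl | hk
    · rw [Nat.cast_zero]
      exact Real.rpow_nonneg le_rfl _
    · calc (k : ℝ) = (k : ℝ) ^ (1 : ℝ) := (Real.rpow_one _).symm
        _ ≤ (k : ℝ) ^ (1 + α) := Real.rpow_le_rpow_of_exponent_le (by exact_mod_cast hk)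
          (by linarith)
  have hs1 : Summable fun k => (μ k).toReal * (k : ℝ) := by
    refine Summable.of_nonneg_of_le (fun k => by positivity) (fun k => ?_) hs
    exact mul_le_mul_of_nonneg_left (hk1 k) ENNReal.toReal_nonneg
  rcases lt_or_ge M 1 with hM1 | hM1
  · -- subcritical: the tree is finite
    have h1 : ∑' k, (μ k).toReal * (k : ℝ) < 1 :=
      lt_of_le_of_lt (Summable.tsum_le_tsum (fun k =>
        mul_le_mul_of_nonneg_left (hk1 k) ENNReal.toReal_nonneg) hs1 hs) hM1
    filter_upwards [finite_of_mean_lt_one μ hs1 h1] with T hT hinf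
    exact absurd hinf hT
  · -- the good value of `y`
    have hα1 : 0 < 1 + α := by linarith
    set y : ℝ := ((1 + α) * M) ^ (-(1 / α)) with hy
    have hM' : 1 < (1 + α) * M := by nlinarith
    have hy0 : 0 < y := Real.rpow_pos_of_pos (by linarith) _
    have hy1 : y < 1 := Real.rpow_lt_one_of_one_lt_of_neg hM' (by
      rw [neg_lt_zero]
      positivity)
    have hyα : y ^ α * M = 1 / (1 + α) := by
      rw [hy, ← Real.rpow_mul (by linarith)]
      have : -(1 / α) * α = -1 := by field_simp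
      rw [this, Real.rpow_neg_one]
      field_simp
    have hc : (α / (1 + α)) * (1 + α) ^ (-(1 / α)) * M ^ (-(1 / α)) = α / (1 + α) * y := by
      rw [hy, Real.mul_rpow hα1.le hM0]
      ring
    rw [hc]
    have hfrac : α / (1 + α) < 1 := by
      rw [div_lt_one hα1]
      linarith
    have hfrac0 : 0 < α / (1 + α) := by positivity
    have hp0 : 0 ≤ α / (1 + α) * y := by positivity
    have hp1 : α / (1 + α) * y < 1 := by nlinarith
    set p : unitInterval := ⟨α / (1 + α) * y, hp0, hp1.le⟩ with hp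
    have key : ∀ᵐ T ∂(gw μ), {v | InT T v}.Infinite → percProb (treeG T) r p = 0 := by
      by_cases hμ : μ 1 = 1
      · have hμ0 : μ 0 = 0 := by
          rw [μ.apply_eq_zero_iff, (μ.apply_eq_one_iff 1).1 hμ]
          simp
        exact criterion_few μ hμ0 p hp1 r (k₀ := 1) (by omega) (by rw [hμ]; exact one_ne_zero)
      · refine criterion μ hμ p hp1 (by omega) hy0.le hy1 ?_
        have hsum : ∑' k, (μ k).toReal * hh r k y ≤ y ^ (1 + α) * M := by
          rw [hM, ← tsum_mul_left]
          refine Summable.tsum_le_tsum (fun k => ?_) ?_ (hs.mul_left _)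
          · have h2 := hh_le_rpow hy0.le hy1.le k r hα1.le (by linarith)
            rw [Real.mul_rpow (Nat.cast_nonneg k) hy0.le] at h2
            calc (μ k).toReal * hh r k y ≤ (μ k).toReal * ((k : ℝ) ^ (1 + α) * y ^ (1 + α)) :=
                  mul_le_mul_of_nonneg_left h2 ENNReal.toReal_nonneg
              _ = y ^ (1 + α) * ((μ k).toReal * (k : ℝ) ^ (1 + α)) := by ring
          · exact summable_pmf_mul μ (b := 1) fun k => by
              rw [abs_of_nonneg (hh_nonneg hy0.le hy1.le _ _)]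
              exact hh_le_one hy0.le hy1.le _ _
        have hsum0 : 0 ≤ ∑' k, (μ k).toReal * hh r k y :=
          tsum_nonneg fun k => mul_nonneg ENNReal.toReal_nonneg (hh_nonneg hy0.le hy1.le _ _)
        have h3 : y ^ (1 + α) * M = y / (1 + α) := by
          rw [Real.rpow_add hy0, Real.rpow_one, mul_assoc, hyα]
          ring
        have h4 : (p : ℝ) + (1 - p) * ∑' k, (μ k).toReal * hh r k y ≤ p + y / (1 + α) := by
          rw [h3] at hsum
          have hpp : (0 : ℝ) ≤ p := p.2.1
          nlinarith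
        refine h4.trans ?_
        change α / (1 + α) * y + y / (1 + α) ≤ y
        have : α / (1 + α) * y + y / (1 + α) = y := by field_simp; ring
        rw [this]
    filter_upwards [key] with T hT hinf
    refine le_pcrit (treeG T) r (fun _ => p) (fun x _ hx => ⟨0, hx.le⟩) fun _ => hT hinf

/-- **MP_0cce6e_pr, Q1 (positive answer).** For every `r ≥ 3` and every real `α` with
`0 < α ≤ r - 1` there is a constant `c > 0` such that for every offspring distribution `μ`, almost
surely, if the Galton-Watson tree is infinite, the critical probability of `r`-neighbour bootstrap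
percolation on it is at least `c (E ξ ^ (1 + α)) ^ (- 1 / α)`. (The moment may be infinite, the
bound is `0` then.) -/
theorem result : ∀ r : ℕ, 3 ≤ r → ∀ α : ℝ, 0 < α → α ≤ r - 1 → ∃ c : ℝ, 0 < c ∧
    ∀ μ : PMF ℕ, ∀ᵐ T ∂(gw μ), {v | InT T v}.Infinite →
      ENNReal.ofReal c * (∑' k : ℕ, μ k * (k : ℝ≥0∞) ^ (1 + α)) ^ (-(1 / α)) ≤
        ENNReal.ofReal (pcrit (treeG T) r) := by
  intro r hr α hα hαr
  have hα1 : 0 < 1 + α := by linarith
  have hc0 : 0 < (α / (1 + α)) * (1 + α) ^ (-(1 / α)) :=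
    mul_pos (by positivity) (Real.rpow_pos_of_pos hα1 _)
  have hneg : -(1 / α) < 0 := by
    rw [neg_lt_zero]
    positivity
  refine ⟨(α / (1 + α)) * (1 + α) ^ (-(1 / α)), hc0, fun μ => ?_⟩
  set E : ℝ≥0∞ := ∑' k : ℕ, μ k * (k : ℝ≥0∞) ^ (1 + α) with hE
  have hterm : ∀ k : ℕ, μ k * (k : ℝ≥0∞) ^ (1 + α) =
      ENNReal.ofReal ((μ k).toReal * (k : ℝ) ^ (1 + α)) := by
    intro k
    rw [ENNReal.ofReal_mul ENNReal.toReal_nonneg, ENNReal.ofReal_toReal (μ.apply_ne_top k),
      ← ENNReal.ofReal_rpow_of_nonneg (Nat.cast_nonneg k) hα1.le, ENNReal.ofReal_natCast]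
  by_cases hEtop : E = ⊤
  · refine Eventually.of_forall fun T _ => ?_
    rw [hEtop, ENNReal.top_rpow_of_neg hneg, mul_zero]
    exact bot_le
  · have hnn : ∀ k : ℕ, 0 ≤ (μ k).toReal * (k : ℝ) ^ (1 + α) := fun k =>
      mul_nonneg ENNReal.toReal_nonneg (Real.rpow_nonneg (Nat.cast_nonneg k) _)
    have hs : Summable fun k : ℕ => (μ k).toReal * (k : ℝ) ^ (1 + α) := by
      have h1 : ∑' k : ℕ, ENNReal.ofReal ((μ k).toReal * (k : ℝ) ^ (1 + α)) ≠ ⊤ := by
        simp_rw [← hterm]
        exact hEtop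
      have h2 := ENNReal.summable_toReal h1
      refine h2.congr fun k => ?_
      exact ENNReal.toReal_ofReal (hnn k)
    have hEeq : E = ENNReal.ofReal (∑' k : ℕ, (μ k).toReal * (k : ℝ) ^ (1 + α)) := by
      rw [hE, ENNReal.ofReal_tsum_of_nonneg hnn hs]
      exact tsum_congr hterm
    set M : ℝ := ∑' k : ℕ, (μ k).toReal * (k : ℝ) ^ (1 + α) with hM
    have hM0 : 0 ≤ M := tsum_nonneg hnn
    rcases hM0.eq_or_lt with hM00 | hMpos
    · -- the tree is finite
      have h0 := (hasSum_zero_iff_of_nonneg hnn).1 (by rw [hM00]; exact hs.hasSum)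
      have h1 : ∀ k : ℕ, (μ k).toReal * (k : ℝ) = 0 := by
        intro k
        have h2 : (μ k).toReal * (k : ℝ) ^ (1 + α) = 0 := congrFun h0 k
        rcases mul_eq_zero.1 h2 with h3 | h3
        · rw [h3, zero_mul]
        · rw [(Real.rpow_eq_zero (Nat.cast_nonneg k) hα1.ne').1 h3, mul_zero]
      have h2 : ∑' k : ℕ, (μ k).toReal * (k : ℝ) < 1 := by
        simp [h1]
      have h3 : Summable fun k : ℕ => (μ k).toReal * (k : ℝ) := by
        simp_rw [h1]
        exact summable_zero
      filter_upwards [finite_of_mean_lt_one μ h3 h2] with T hT hinf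
      exact absurd hinf hT
    · filter_upwards [main_real hr hα hαr μ hs] with T hT hinf
      rw [hEeq, ENNReal.ofReal_rpow_of_pos hMpos, ← ENNReal.ofReal_mul hc0.le]
      exact ENNReal.ofReal_le_ofReal (hT hinf)

end Pool.Agent.Results.MP_0cce6e_pr.MomentBound
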